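import Mathlib

set_option autoImplicit false

/-! Independent sets in digraphs of bounded out-degree; disjoint blocks with product one. -/

namespace Pool.Agent.R176.ETM

open Finset Classical

lemma exists_indep {α : Type*} (r : α → α → Prop) (D : ℕ) (S : Finset α)
    (hout : ∀ j ∈ S, (S.filter (fun i => r j i)).card ≤ D) :
    ∃ I ⊆ S, (∀ i ∈ I, ∀ j ∈ I, i ≠ j → ¬ r j i) ∧ S.card ≤ (2 * D + 1) * I.card := by
  induction S using Finset.strongInduction with
  | H S ih =>
    rcases S.eq_empty_or_nonempty with rfl | hne
    · exact ⟨∅, by simp, by simp, by simp⟩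
    · have hsum : ∑ i ∈ S, (S.filter (fun j => r j i)).card ≤ ∑ i ∈ S, D := by
        have : ∑ i ∈ S, (S.filter (fun j => r j i)).card
            = ∑ j ∈ S, (S.filter (fun i => r j i)).card := by
          simp only [Finset.card_filter]
          exact Finset.sum_comm
        rw [this]
        exact Finset.sum_le_sum hout
      obtain ⟨i0, hi0, hin⟩ := Finset.exists_le_of_sum_le hne hsum
      set R : Finset α := insert i0 (S.filter (fun j => r j i0) ∪ S.filter (fun j => r i0 j)) with hR
      have hRc : R.card ≤ 2 * D + 1 := by
        refine (Finset.card_insert_le _ _).trans ?_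
        have := Finset.card_union_le (S.filter (fun j => r j i0)) (S.filter (fun j => r i0 j))
        have := hout i0 hi0
        omega
      have hss : S \ R ⊂ S := by
        refine Finset.sdiff_ssubset ?_ ⟨i0, by simp [hR]⟩
        intro x hx
        rw [hR, Finset.mem_insert, Finset.mem_union, Finset.mem_filter, Finset.mem_filter] at hx
        rcases hx with rfl | hx | hx
        · exact hi0
        · exact hx.1
        · exact hx.1
      obtain ⟨I, hI, hind, hcard⟩ := ih (S \ R) hss (by
        intro j hj
        refine le_trans (Finset.card_le_card ?_) (hout j (Finset.mem_sdiff.1 hj).1)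
        exact Finset.filter_subset_filter _ Finset.sdiff_subset)
      have hi0I : i0 ∉ I := by
        intro h
        have := (Finset.mem_sdiff.1 (hI h)).2
        exact this (by simp [hR])
      refine ⟨insert i0 I, ?_, ?_, ?_⟩
      · intro x hx
        rcases Finset.mem_insert.1 hx with rfl | hx
        · exact hi0
        · exact (Finset.mem_sdiff.1 (hI hx)).1
      · have key : ∀ j ∈ I, ¬ r j i0 ∧ ¬ r i0 j := by
          intro j hj
          obtain ⟨h1, h2⟩ := Finset.mem_sdiff.1 (hI hj)
          rw [hR, Finset.mem_insert, Finset.mem_union, Finset.mem_filter, Finset.mem_filter] at h2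
          push Not at h2
          exact ⟨h2.2.1 h1, h2.2.2 h1⟩
        intro i hi j hj hij
        rcases Finset.mem_insert.1 hi with hi | hi
        · rcases Finset.mem_insert.1 hj with hj | hj
          · exact absurd (hi.trans hj.symm) hij
          · rw [hi]; exact (key j hj).1
        · rcases Finset.mem_insert.1 hj with hj | hj
          · rw [hj]; exact (key i hi).2
          · exact hind i hi j hj hij
      · rw [Finset.card_insert_of_notMem hi0I]
        have h1 : S.card ≤ (S \ R).card + R.card := by
          have := Finset.card_le_card_sdiff_add_card (s := S) (t := R)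
          omega
        calc S.card ≤ (S \ R).card + R.card := h1
          _ ≤ (2 * D + 1) * I.card + (2 * D + 1) := add_le_add hcard hRc
          _ = _ := by ring

/-- Disjoint blocks of size `e = |G|` with product one. -/
lemma exists_blocks {α G : Type*} [CommGroup G] [Finite G] (g : α → G) (S : Finset α) :
    ∃ 𝓑 : Finset (Finset α), (∀ B ∈ 𝓑, B ⊆ S ∧ B.card = Nat.card G ∧ ∏ x ∈ B, g x = 1) ∧
      (∀ B ∈ 𝓑, ∀ C ∈ 𝓑, B ≠ C → Disjoint B C) ∧
      S.card ≤ Nat.card G * 𝓑.card + Nat.card G * Nat.card G := by
  have : Fintype G := Fintype.ofFinite G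
  have he : 0 < Nat.card G := Nat.card_pos
  induction S using Finset.strongInduction with
  | H S ih =>
    by_cases hS : S.card ≤ Nat.card G * Nat.card G
    · exact ⟨∅, by simp, by simp, by simpa using hS⟩
    · push Not at hS
      obtain ⟨w, _, hw⟩ := Finset.exists_lt_card_fiber_of_mul_lt_card_of_maps_to
        (s := S) (t := (Finset.univ : Finset G)) (f := g) (n := Nat.card G) (fun a _ => Finset.mem_univ _)
        (by rw [Finset.card_univ, ← Nat.card_eq_fintype_card]; exact hS)
      obtain ⟨B, hB, hBc⟩ := Finset.exists_subset_card_eq hw.le
      have hBS : B ⊆ S := hB.trans (Finset.filter_subset _ _)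
      have hBne : B.Nonempty := Finset.card_pos.1 (by omega)
      obtain ⟨𝓑, h1, h2, h3⟩ := ih (S \ B) (Finset.sdiff_ssubset hBS hBne)
      have hBdis : ∀ C ∈ 𝓑, Disjoint B C := by
        intro C hC
        exact Finset.disjoint_of_subset_right (h1 C hC).1 Finset.disjoint_sdiff
      have hnot : B ∉ 𝓑 := by
        intro h
        have := hBdis B h
        rw [disjoint_self] at this
        exact hBne.ne_empty this
      refine ⟨insert B 𝓑, ?_, ?_, ?_⟩
      · intro C hC
        rcases Finset.mem_insert.1 hC with rfl | hC
        · refine ⟨hBS, hBc, ?_⟩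
          rw [Finset.prod_congr rfl (fun x hx => (Finset.mem_filter.1 (hB hx)).2), Finset.prod_const,
            hBc]
          exact pow_card_eq_one'
        · obtain ⟨a, b, c⟩ := h1 C hC
          exact ⟨a.trans Finset.sdiff_subset, b, c⟩
      · intro C hC C' hC' hne
        rcases Finset.mem_insert.1 hC with hC | hC
        · rcases Finset.mem_insert.1 hC' with hC' | hC'
          · exact absurd (hC.trans hC'.symm) hne
          · rw [hC]; exact hBdis C' hC'
        · rcases Finset.mem_insert.1 hC' with hC' | hC'
          · rw [hC']; exact (hBdis C hC).symm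
          · exact h2 C hC C' hC' hne
      · rw [Finset.card_insert_of_notMem hnot]
        have h4 : (S \ B).card = S.card - B.card := Finset.card_sdiff_of_subset hBS
        have h5 : B.card ≤ S.card := Finset.card_le_card hBS
        calc S.card = (S \ B).card + Nat.card G := by omega
          _ ≤ _ := by
            rw [mul_add, mul_one]
            omega

end Pool.Agent.R176.ETM
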