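import Pool.Agent.R176.ETM.Rankin
import Pool.Agent.R176.ETM.Indep

set_option autoImplicit false

/-! Many representations from many coprime prime powers. -/

namespace Pool.Agent.R176.ETM

open Finset Classical

/-- The number of ordered `h`-tuples of elements of `A` with sum `n`. -/
noncomputable def reps (A : Set ℕ) (h n : ℕ) : ℕ :=
  ((Finset.Nat.antidiagonalTuple h n).filter (fun v => ∀ i, v i ∈ A)).card

/-- `n` is a sum of `h` elements of `A`. -/
def IsSum (A : Set ℕ) (h n : ℕ) : Prop := ∃ v : Fin h → ℕ, (∀ i, v i ∈ A) ∧ ∑ i, v i = n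

section

variable {W : Type*} [CommGroupWithZero W] {f : ℕ → W}

lemma f_prod (hf1 : f 1 = 1) (hf : ∀ m n, Nat.Coprime m n → f (m * n) = f m * f n)
    {ι : Type*} (J : Finset ι) (a : ι → ℕ)
    (hco : ∀ i ∈ J, ∀ j ∈ J, i ≠ j → Nat.Coprime (a i) (a j)) :
    f (∏ i ∈ J, a i) = ∏ i ∈ J, f (a i) := by
  induction J using Finset.induction_on with
  | empty => simpa using hf1
  | insert i J hi ih =>
    rw [Finset.prod_insert hi, Finset.prod_insert hi, hf, ih]
    · intro j hj k hk hjk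
      exact hco j (Finset.mem_insert_of_mem hj) k (Finset.mem_insert_of_mem hk) hjk
    · refine Nat.Coprime.prod_right (fun j hj => ?_)
      exact hco i (Finset.mem_insert_self _ _) j (Finset.mem_insert_of_mem hj)
        (fun h => hi (h ▸ hj))

lemma core (hf1 : f 1 = 1) (hf : ∀ m n, Nat.Coprime m n → f (m * n) = f m * f n)
    {A : Set ℕ} (hA : ∀ a ∈ A, 0 < a)
    (hcl : ∀ a ∈ A, ∀ m, 0 < m → f m = 1 → Nat.Coprime a m → m * a ∈ A)
    {h : ℕ} (hh : 2 ≤ h) (I : Finset ℕ)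
    (hco : ∀ m ∈ I, ∀ m' ∈ I, m ≠ m' → Nat.Coprime m m') (hfI : ∀ m ∈ I, f m = 1)
    (x : ℕ → Fin h → ℕ) (hx : ∀ m ∈ I, (∀ i, x m i ∈ A) ∧ ∑ i, x m i = m)
    (hind : ∀ m ∈ I, ∀ m' ∈ I, m ≠ m' → ∀ i, Nat.Coprime (x m i) m') :
    I.card ≤ reps A h (∏ m ∈ I, m) := by
  unfold reps
  have hIpos : ∀ m ∈ I, 0 < m := by
    intro m hm
    obtain ⟨h1, h2⟩ := hx m hm
    have h3 : x m ⟨0, by omega⟩ ≤ ∑ j, x m j :=
      Finset.single_le_sum (f := fun j => x m j) (fun j _ => Nat.zero_le _) (Finset.mem_univ _)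
    have h4 := hA _ (h1 ⟨0, by omega⟩)
    omega
  refine Finset.card_le_card_of_injOn (fun m i => (∏ m' ∈ I.erase m, m') * x m i) ?_ ?_
  · intro m hm
    have hm' : m ∈ I := hm
    simp only [Finset.coe_filter, Set.mem_ofPred_eq, Finset.Nat.mem_antidiagonalTuple]
    constructor
    · rw [← Finset.mul_sum, (hx m hm').2]
      exact Finset.prod_erase_mul I (fun m => m) hm'
    · intro i
      refine hcl _ ((hx m hm').1 i) _
        (Finset.prod_pos (fun j hj => hIpos j (Finset.mem_of_mem_erase hj))) ?_ ?_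
      · rw [f_prod hf1 hf (I.erase m) (fun m => m)]
        · exact Finset.prod_eq_one (fun j hj => hfI j (Finset.mem_of_mem_erase hj))
        · intro j hj k hk hjk
          exact hco j (Finset.mem_of_mem_erase hj) k (Finset.mem_of_mem_erase hk) hjk
      · refine Nat.Coprime.prod_right (fun j hj => ?_)
        exact hind m hm' j (Finset.mem_of_mem_erase hj) (Finset.ne_of_mem_erase hj).symm i
  · intro m hm m' hm' heq
    have hm1 : m ∈ I := hm
    have hm2 : m' ∈ I := hm'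
    by_contra hne
    obtain ⟨k, rfl⟩ : ∃ k, h = k + 2 := ⟨h - 2, by omega⟩
    have h0 := congrFun heq 0
    simp only at h0
    have hd : m ∣ (∏ j ∈ I.erase m, j) * x m 0 := by
      rw [h0]
      exact (Finset.dvd_prod_of_mem (fun j => j)
        (Finset.mem_erase.2 ⟨hne, hm1⟩)).mul_right _
    have hc : Nat.Coprime m (∏ j ∈ I.erase m, j) := by
      refine Nat.Coprime.prod_right (fun j hj => ?_)
      exact hco m hm1 j (Finset.mem_of_mem_erase hj) (Finset.ne_of_mem_erase hj).symm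
    have hd2 : m ∣ x m 0 := hc.dvd_of_dvd_mul_left hd
    have hpos : ∀ i, 0 < x m i := fun i => hA _ ((hx m hm1).1 i)
    have hlt : x m 0 < m := by
      have hsum := (hx m hm1).2
      calc x m 0 < x m 0 + x m 1 := by have := hpos 1; omega
        _ = ∑ l ∈ ({0, 1} : Finset (Fin (k + 2))), x m l := by
            rw [Finset.sum_pair (by simp)]
        _ ≤ ∑ l, x m l := Finset.sum_le_sum_of_subset (Finset.subset_univ _)
        _ = m := hsum
    exact absurd (Nat.le_of_dvd (hpos 0) hd2) (not_le.2 hlt)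

/-- The primes with a power `≤ X` on which `f` does not vanish. -/
noncomputable def Qs (f : ℕ → W) (X : ℕ) : Finset ℕ :=
  (Finset.range (X + 1)).filter (fun p => p.Prime ∧ ∃ k, 1 ≤ k ∧ p ^ k ≤ X ∧ f (p ^ k) ≠ 0)

lemma primeFactors_subset (hf : ∀ m n, Nat.Coprime m n → f (m * n) = f m * f n)
    {n X : ℕ} (h1 : 1 ≤ n) (h2 : n ≤ X) (h3 : f n ≠ 0) : n.primeFactors ⊆ Qs f X := by
  intro p hp
  have hpp := Nat.prime_of_mem_primeFactors hp
  have hdvd := Nat.dvd_of_mem_primeFactors hp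
  have hn : n ≠ 0 := by omega
  have hk : 1 ≤ n.factorization p := (hpp.dvd_iff_one_le_factorization hn).1 hdvd
  have hle : p ^ n.factorization p ≤ n := Nat.ordProj_le p hn
  unfold Qs
  rw [Finset.mem_filter, Finset.mem_range]
  refine ⟨?_, hpp, n.factorization p, hk, hle.trans h2, ?_⟩
  · have := Nat.le_of_dvd (by omega) hdvd
    omega
  · intro h0
    apply h3
    have hcop : Nat.Coprime (p ^ n.factorization p) (n / p ^ n.factorization p) :=
      Nat.Coprime.pow_left _ (Nat.coprime_ordCompl hpp hn)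
    have := hf _ _ hcop
    rw [Nat.ordProj_mul_ordCompl_eq_self] at this
    rw [this, h0, zero_mul]

lemma many [Finite W] (hf1 : f 1 = 1) (hf : ∀ m n, Nat.Coprime m n → f (m * n) = f m * f n)
    {A : Set ℕ} (hA : ∀ a ∈ A, 0 < a)
    (hcl : ∀ a ∈ A, ∀ m, 0 < m → f m = 1 → Nat.Coprime a m → m * a ∈ A)
    {h : ℕ} (hh : 2 ≤ h) {n0 : ℕ} (hrep : ∀ n, n0 ≤ n → f n = 1 → IsSum A h n)
    (X L t : ℕ) (hXL : X ≤ 2 ^ L)
    (ht : Nat.card Wˣ * ((2 * (L * Nat.card Wˣ * h) + 1) * t) + Nat.card Wˣ * n0 +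
      Nat.card Wˣ * Nat.card Wˣ ≤ (Qs f X).card) :
    ∃ N, t ≤ reps A h N ∧ 2 ^ t ≤ N ∧ N ≤ (X ^ Nat.card Wˣ) ^ t := by
  set e := Nat.card Wˣ with he
  have he0 : 0 < e := Nat.card_pos
  -- prime powers
  have hq : ∀ p ∈ Qs f X, ∃ k, 1 ≤ k ∧ p ^ k ≤ X ∧ f (p ^ k) ≠ 0 := by
    intro p hp
    exact (Finset.mem_filter.1 hp).2.2
  have hprime : ∀ p ∈ Qs f X, p.Prime := fun p hp => (Finset.mem_filter.1 hp).2.1
  choose! k hk1 hkX hkf using hq
  let g : ℕ → Wˣ := fun p => if hp : f (p ^ k p) = 0 then 1 else Units.mk0 _ hp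
  have hg : ∀ p ∈ Qs f X, (g p : W) = f (p ^ k p) := by
    intro p hp
    simp only [g, hkf p hp, dite_false, Units.val_mk0]
  obtain ⟨𝓑, hB1, hB2, hB3⟩ := exists_blocks g (Qs f X)
  rw [← he] at hB1 hB3
  let m : Finset ℕ → ℕ := fun B => ∏ p ∈ B, p ^ k p
  have hcopp : ∀ p ∈ Qs f X, ∀ q ∈ Qs f X, p ≠ q → Nat.Coprime (p ^ k p) (q ^ k q) := by
    intro p hp q hq hpq
    exact Nat.Coprime.pow _ _ ((Nat.coprime_primes (hprime p hp) (hprime q hq)).2 hpq)
  have hmf : ∀ B ∈ 𝓑, f (m B) = 1 := by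
    intro B hB
    obtain ⟨h1, _, h3⟩ := hB1 B hB
    show f (∏ p ∈ B, p ^ k p) = 1
    rw [f_prod hf1 hf B (fun p => p ^ k p)
      (fun p hp q hq hpq => hcopp p (h1 hp) q (h1 hq) hpq)]
    rw [← Finset.prod_congr rfl (fun p hp => hg p (h1 hp)), ← Units.coe_prod, h3, Units.val_one]
  have hm2 : ∀ B ∈ 𝓑, 2 ≤ m B := by
    intro B hB
    obtain ⟨h1, h2, _⟩ := hB1 B hB
    obtain ⟨p, hp⟩ : B.Nonempty := Finset.card_pos.1 (by omega)
    have hd : p ^ k p ∣ m B := Finset.dvd_prod_of_mem (fun p => p ^ k p) hp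
    have hpos : 0 < m B := Finset.prod_pos (fun q hq => pow_pos (hprime q (h1 hq)).pos _)
    calc 2 ≤ p := (hprime p (h1 hp)).two_le
      _ = p ^ 1 := (pow_one p).symm
      _ ≤ p ^ k p := Nat.pow_le_pow_right (hprime p (h1 hp)).pos (hk1 p (h1 hp))
      _ ≤ m B := Nat.le_of_dvd hpos hd
  have hmX : ∀ B ∈ 𝓑, m B ≤ X ^ e := by
    intro B hB
    obtain ⟨h1, h2, _⟩ := hB1 B hB
    rw [← h2]
    exact Finset.prod_le_pow_card B _ X (fun p hp => hkX p (h1 hp))
  have hmco : ∀ B ∈ 𝓑, ∀ C ∈ 𝓑, B ≠ C → Nat.Coprime (m B) (m C) := by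
    intro B hB C hC hBC
    have hd := hB2 B hB C hC hBC
    refine Nat.Coprime.prod_left (fun p hp => Nat.Coprime.prod_right (fun q hq => ?_))
    refine hcopp p ((hB1 B hB).1 hp) q ((hB1 C hC).1 hq) ?_
    rintro rfl
    exact (Finset.disjoint_left.1 hd hp) hq
  have hminj : Set.InjOn m (𝓑 : Set (Finset ℕ)) := by
    intro B hB C hC hBC
    by_contra hne
    have := hmco B hB C hC hne
    rw [← hBC, Nat.coprime_self] at this
    have := hm2 B hB
    omega
  set M : Finset ℕ := 𝓑.image m with hM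
  have hMcard : M.card = 𝓑.card := Finset.card_image_of_injOn hminj
  set M' : Finset ℕ := M.filter (fun n => n0 ≤ n) with hM'
  have hM'card : M.card ≤ M'.card + n0 := by
    rw [← Finset.card_filter_add_card_filter_not (s := M) (fun n => n0 ≤ n)]
    refine Nat.add_le_add_left ?_ _
    calc (M.filter (fun n => ¬ n0 ≤ n)).card ≤ (Finset.range n0).card := by
          refine Finset.card_le_card (fun n hn => ?_)
          rw [Finset.mem_filter] at hn
          rw [Finset.mem_range]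
          exact not_le.1 hn.2
      _ = n0 := Finset.card_range _
  have hMprop : ∀ n ∈ M', n0 ≤ n ∧ f n = 1 ∧ 2 ≤ n ∧ n ≤ X ^ e := by
    intro n hn
    obtain ⟨h1, h2⟩ := Finset.mem_filter.1 hn
    obtain ⟨B, hB, rfl⟩ := Finset.mem_image.1 h1
    exact ⟨h2, hmf B hB, hm2 B hB, hmX B hB⟩
  have hMco : ∀ n ∈ M', ∀ n' ∈ M', n ≠ n' → Nat.Coprime n n' := by
    intro n hn n' hn' hne
    obtain ⟨B, hB, rfl⟩ := Finset.mem_image.1 (Finset.mem_filter.1 hn).1
    obtain ⟨C, hC, rfl⟩ := Finset.mem_image.1 (Finset.mem_filter.1 hn').1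
    exact hmco B hB C hC (fun h => hne (by rw [h]))
  have hx : ∀ n ∈ M', ∃ v : Fin h → ℕ, (∀ i, v i ∈ A) ∧ ∑ i, v i = n :=
    fun n hn => hrep n (hMprop n hn).1 (hMprop n hn).2.1
  choose! x hxA hxs using hx
  let r : ℕ → ℕ → Prop := fun n n' => n ≠ n' ∧ ¬ Nat.Coprime (∏ i, x n i) n'
  set D := L * e * h with hD
  have hout : ∀ n ∈ M', (M'.filter (fun n' => r n n')).card ≤ D := by
    intro n hn
    set Y := ∏ i, x n i with hY
    have hYpos : 0 < Y := Finset.prod_pos (fun i _ => hA _ (hxA n hn i))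
    have hYle : Y ≤ 2 ^ D := by
      calc Y ≤ ∏ i : Fin h, n := by
            refine Finset.prod_le_prod' (fun i _ => ?_)
            have h5 : x n i ≤ ∑ j, x n j :=
              Finset.single_le_sum (f := fun j => x n j) (fun j _ => Nat.zero_le _)
                (Finset.mem_univ i)
            rwa [hxs n hn] at h5
        _ = n ^ h := by simp
        _ ≤ (X ^ e) ^ h := Nat.pow_le_pow_left (hMprop n hn).2.2.2 _
        _ ≤ ((2 ^ L) ^ e) ^ h := Nat.pow_le_pow_left (Nat.pow_le_pow_left hXL _) _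
        _ = 2 ^ D := by rw [hD, pow_mul, pow_mul]
    have h1 : 2 ^ Y.primeFactors.card ≤ Y := by
      calc 2 ^ Y.primeFactors.card ≤ ∏ p ∈ Y.primeFactors, p := by
            refine Finset.pow_card_le_prod _ _ _ (fun p hp => ?_)
            exact (Nat.prime_of_mem_primeFactors hp).two_le
        _ ≤ Y := Nat.le_of_dvd hYpos (Nat.prod_primeFactors_dvd Y)
    have h2 : Y.primeFactors.card ≤ D :=
      (Nat.pow_le_pow_iff_right (by norm_num)).1 (h1.trans hYle)
    refine le_trans ?_ h2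
    have hp : ∀ n' ∈ M'.filter (fun n' => r n n'), ∃ p, p.Prime ∧ p ∣ Y ∧ p ∣ n' := by
      intro n' hn'
      obtain ⟨_, _, h4⟩ := Finset.mem_filter.1 hn'
      exact Nat.Prime.not_coprime_iff_dvd.1 h4
    choose! pr hpr1 hpr2 hpr3 using hp
    refine Finset.card_le_card_of_injOn pr ?_ ?_
    · intro n' hn'
      exact Nat.mem_primeFactors.2 ⟨hpr1 n' hn', hpr2 n' hn', hYpos.ne'⟩
    · intro n' hn' n'' hn'' heq
      by_contra hne
      have hc := hMco n' (Finset.mem_filter.1 hn').1 n'' (Finset.mem_filter.1 hn'').1 hne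
      exact Nat.Prime.not_coprime_iff_dvd.2 ⟨pr n', hpr1 n' hn', hpr3 n' hn',
        heq ▸ hpr3 n'' hn''⟩ hc
  obtain ⟨I, hI, hind, hIc⟩ := exists_indep r D M'
    (fun j hj => by convert hout j hj)
  have htI : t ≤ I.card := by
    have h1 : e * ((2 * D + 1) * t) + e * n0 + e * e ≤ e * (M'.card + n0) + e * e := by
      refine ht.trans (hB3.trans ?_)
      rw [← hMcard]
      exact Nat.add_le_add_right (Nat.mul_le_mul_left _ hM'card) _
    have h2 : e * ((2 * D + 1) * t) ≤ e * ((2 * D + 1) * I.card) := by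
      have h3 : e * M'.card ≤ e * ((2 * D + 1) * I.card) := Nat.mul_le_mul_left _ hIc
      rw [mul_add] at h1
      omega
    exact Nat.le_of_mul_le_mul_left (Nat.le_of_mul_le_mul_left h2 he0) (by omega)
  obtain ⟨I', hI', hI'c⟩ := Finset.exists_subset_card_eq htI
  have hI'M : ∀ n ∈ I', n ∈ M' := fun n hn => hI (hI' hn)
  refine ⟨∏ n ∈ I', n, ?_, ?_, ?_⟩
  · rw [← hI'c]
    refine core hf1 hf hA hcl hh I' (fun n hn n' hn' => hMco n (hI'M n hn) n' (hI'M n' hn'))
      (fun n hn => (hMprop n (hI'M n hn)).2.1) x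
      (fun n hn => ⟨hxA n (hI'M n hn), hxs n (hI'M n hn)⟩) ?_
    intro n hn n' hn' hne i
    have h1 : ¬ r n n' := hind n' (hI' hn') n (hI' hn) hne.symm
    have h2 : Nat.Coprime (∏ i, x n i) n' := by
      by_contra h3
      exact h1 ⟨hne, h3⟩
    exact Nat.Coprime.coprime_dvd_left (Finset.dvd_prod_of_mem _ (Finset.mem_univ i)) h2
  · rw [← hI'c]
    exact Finset.pow_card_le_prod _ _ _ (fun n hn => (hMprop n (hI'M n hn)).2.2.1)
  · rw [← hI'c]
    exact Finset.prod_le_pow_card I' _ _ (fun n hn => (hMprop n (hI'M n hn)).2.2.2)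

end

end Pool.Agent.R176.ETM
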