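import Pool.Agent.R176.ETM.Core

set_option autoImplicit false

/-! The logarithmic lower bound. -/

namespace Pool.Agent.R176.ETM

open Finset Filter Real Classical

section

variable {W : Type*} [CommGroupWithZero W] {f : ℕ → W}

lemma many_primes (hf : ∀ m n, Nat.Coprime m n → f (m * n) = f m * f n)
    {A : Set ℕ} (hsupp : ∀ a ∈ A, f a ≠ 0) {δ σ : ℝ} (h0 : 0 < σ) (h1 : σ < 1) :
    ∃ K : ℝ, 0 < K ∧ ∀ X : ℕ, 1 ≤ X →
      (X : ℝ) ^ δ ≤ (((Finset.Icc 1 X).filter (fun n => n ∈ A)).card : ℝ) →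
      (δ - σ) * log X ≤ K * ((Qs f X).card : ℝ) ^ (1 - σ) := by
  obtain ⟨K, hK, hcount⟩ := count h0 h1
  refine ⟨K, hK, fun X hX hle => ?_⟩
  have h2 := hcount (Qs f X) (fun p hp => (Finset.mem_filter.1 hp).2.1) X
    ((Finset.Icc 1 X).filter (fun n => n ∈ A)) (by
      intro n hn
      obtain ⟨h3, h4⟩ := Finset.mem_filter.1 hn
      rw [Finset.mem_Icc] at h3
      exact ⟨h3.1, h3.2, primeFactors_subset hf h3.1 h3.2 (hsupp n h4)⟩)
  have hX0 : (0 : ℝ) < X := by exact_mod_cast hX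
  have h3 := hle.trans h2
  have h4 := Real.log_le_log (by positivity) h3
  rw [Real.log_mul (by positivity) (exp_pos _).ne', Real.log_exp, Real.log_rpow hX0,
    Real.log_rpow hX0] at h4
  linarith

theorem main_pos [Finite W] (hf1 : f 1 = 1)
    (hf : ∀ m n, Nat.Coprime m n → f (m * n) = f m * f n)
    {A : Set ℕ} (hA : ∀ a ∈ A, 0 < a) (hsupp : ∀ a ∈ A, f a ≠ 0)
    (hcl : ∀ a ∈ A, ∀ m, 0 < m → f m = 1 → Nat.Coprime a m → m * a ∈ A)
    {h : ℕ} (hh : 2 ≤ h) {n0 : ℕ} (hrep : ∀ n, n0 ≤ n → f n = 1 → IsSum A h n)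
    {δ σ : ℝ} (hσ0 : 0 < σ) (hσδ : σ < δ) (hδ1 : δ ≤ 1)
    (hfreq : ∃ᶠ X : ℕ in atTop,
      (X : ℝ) ^ δ ≤ (((Finset.Icc 1 X).filter (fun n => n ∈ A)).card : ℝ)) :
    ∃ᶠ n : ℕ in atTop, (log n) ^ σ ≤ (reps A h n : ℝ) := by
  set e : ℕ := Nat.card Wˣ with he
  obtain ⟨σ1, hσ1, hσ1'⟩ := exists_between hσδ
  obtain ⟨σ2, hσ2, hσ2'⟩ := exists_between hσ1'
  have hσ2lt : σ2 < 1 := by linarith
  obtain ⟨K, hK, hmany⟩ := many_primes hf hsupp (δ := δ) (by linarith : 0 < σ2) hσ2lt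
  set β : ℝ := σ1 / (1 - σ1) with hβ
  set τ : ℝ := 1 / (1 - σ2) with hτ
  have h11 : 0 < 1 - σ1 := by linarith
  have h12 : 0 < 1 - σ2 := by linarith
  have hβpos : 0 < β := div_pos (by linarith) h11
  have e1 : 1 + β = 1 / (1 - σ1) := by rw [hβ]; field_simp; ring
  have hβ1 : σ * (1 + β) < β := by
    rw [e1, hβ, mul_one_div]
    exact (div_lt_div_iff_of_pos_right h11).2 hσ1
  have hβ2 : 1 + β < τ := by
    rw [e1, hτ]
    exact one_div_lt_one_div_of_lt h12 (by linarith)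
  set c : ℝ := ((δ - σ2) / K) ^ τ with hc
  have hcpos : 0 < c := rpow_pos_of_pos (div_pos (by linarith) hK) _
  set C : ℝ := (e : ℝ) * ((6 * e * h + 1) * 2) + e * n0 + e * e with hC
  have hCnn : 0 ≤ C := by positivity
  have hlog : Tendsto (fun X : ℕ => log (X : ℝ)) atTop atTop :=
    tendsto_log_atTop.comp tendsto_natCast_atTop_atTop
  have hE1 : ∀ᶠ X : ℕ in atTop, C / c ≤ log (X : ℝ) ^ (τ - (1 + β)) :=
    ((tendsto_rpow_atTop (by linarith)).comp hlog).eventually (eventually_ge_atTop _)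
  have hE2 : ∀ᶠ X : ℕ in atTop, (2 * (e : ℝ)) ^ σ ≤ log (X : ℝ) ^ (β - (1 + β) * σ) :=
    ((tendsto_rpow_atTop (by linarith [mul_comm σ (1 + β)])).comp hlog).eventually
      (eventually_ge_atTop _)
  have hE3 : ∀ᶠ X : ℕ in atTop, 1 ≤ log (X : ℝ) := hlog.eventually (eventually_ge_atTop _)
  rw [frequently_atTop]
  intro N0
  have hE4 : ∀ᶠ X : ℕ in atTop, (N0 : ℝ) ≤ log (X : ℝ) ^ β :=
    ((tendsto_rpow_atTop hβpos).comp hlog).eventually (eventually_ge_atTop _)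
  obtain ⟨X, hX, hX1, hX2, hX3, hX4⟩ :=
    (hfreq.and_eventually (hE1.and (hE2.and (hE3.and hE4)))).exists
  set l : ℝ := log (X : ℝ) with hl
  have hX1' : 1 ≤ X := by
    by_contra h0
    have : X = 0 := by omega
    rw [this] at hl
    rw [hl] at hX3
    norm_num at hX3
  have hX0 : (0 : ℝ) < X := by exact_mod_cast hX1'
  have hl0 : 0 < l := by linarith
  set t : ℕ := ⌈l ^ β⌉₊ with ht
  set L : ℕ := ⌈2 * l⌉₊ with hL
  have hlβ1 : 1 ≤ l ^ β := one_le_rpow hX3 hβpos.le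
  have ht1 : l ^ β ≤ t := Nat.le_ceil _
  have ht2 : (t : ℝ) ≤ 2 * l ^ β := by
    have := Nat.ceil_lt_add_one (a := l ^ β) (by positivity)
    linarith
  have hL2 : (L : ℝ) ≤ 3 * l := by
    have := Nat.ceil_lt_add_one (a := 2 * l) (by positivity)
    linarith
  have hXL : X ≤ 2 ^ L := by
    have h5 : (X : ℝ) ≤ (2 : ℝ) ^ L := by
      calc (X : ℝ) = exp l := (exp_log hX0).symm
        _ ≤ exp (log 2 * L) := by
            refine exp_le_exp.2 ?_
            have h6 : (2 * l) ≤ L := Nat.le_ceil _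
            have h7 : (0.6931471803 : ℝ) < log 2 := log_two_gt_d9
            nlinarith
        _ = (2 : ℝ) ^ L := by
            rw [mul_comm, exp_nat_mul, exp_log (by norm_num)]
    exact_mod_cast h5
  -- the number of primes
  have hs : c * l ^ τ ≤ ((Qs f X).card : ℝ) := by
    have h5 := hmany X hX1' hX
    have h6 : (δ - σ2) / K * l ≤ ((Qs f X).card : ℝ) ^ (1 - σ2) := by
      rw [div_mul_eq_mul_div, div_le_iff₀ hK, mul_comm _ K]
      exact h5
    have h7 : 0 ≤ (δ - σ2) / K * l := mul_nonneg (div_nonneg (by linarith) hK.le) hl0.le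
    have h8 := rpow_le_rpow h7 h6 (by rw [hτ]; positivity : (0 : ℝ) ≤ τ)
    rw [← rpow_mul (by positivity), hτ, mul_one_div_cancel h12.ne', rpow_one,
      mul_rpow (div_nonneg (by linarith) hK.le) hl0.le] at h8
    exact h8
  have hbig : e * ((2 * (L * e * h) + 1) * t) + e * n0 + e * e ≤ (Qs f X).card := by
    have h5 : ((e * ((2 * (L * e * h) + 1) * t) + e * n0 + e * e : ℕ) : ℝ) ≤
        ((Qs f X).card : ℝ) := by
      refine le_trans ?_ hs
      have h6 : C * l ^ (1 + β) ≤ c * l ^ τ := by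
        have h7 : C ≤ c * l ^ (τ - (1 + β)) := by
          rw [div_le_iff₀ hcpos] at hX1
          linarith
        calc C * l ^ (1 + β) ≤ (c * l ^ (τ - (1 + β))) * l ^ (1 + β) :=
              mul_le_mul_of_nonneg_right h7 (by positivity)
          _ = c * l ^ τ := by
              rw [mul_assoc, ← rpow_add hl0]
              congr 2
              ring
      refine le_trans ?_ h6
      push_cast
      have hlβ : 1 ≤ l ^ (1 + β) := one_le_rpow hX3 (by linarith)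
      have h8 : l * l ^ β = l ^ (1 + β) := by
        rw [rpow_add hl0, rpow_one]
      have h9 : ((2 * ((L : ℝ) * e * h) + 1) * t) ≤ (6 * e * h + 1) * 2 * l ^ (1 + β) := by
        calc ((2 * ((L : ℝ) * e * h) + 1) * t) ≤ ((2 * ((3 * l) * e * h) + l) * (2 * l ^ β)) := by
              gcongr
          _ = (6 * e * h + 1) * 2 * (l * l ^ β) := by ring
          _ = _ := by rw [h8]
      rw [hC]
      have hen : (0 : ℝ) ≤ e * n0 + e * e := by positivity
      calc (e : ℝ) * ((2 * ((L : ℝ) * e * h) + 1) * t) + e * n0 + e * e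
          ≤ e * ((6 * e * h + 1) * 2 * l ^ (1 + β)) + (e * n0 + e * e) * l ^ (1 + β) := by
            have h10 : (e : ℝ) * ((2 * ((L : ℝ) * e * h) + 1) * t) ≤
              e * ((6 * e * h + 1) * 2 * l ^ (1 + β)) := mul_le_mul_of_nonneg_left h9 (by positivity)
            nlinarith
        _ = _ := by ring
    exact_mod_cast h5
  obtain ⟨N, hN1, hN2, hN3⟩ := many hf1 hf hA hcl hh hrep X L t hXL hbig
  refine ⟨N, ?_, ?_⟩
  · have h5 : (N0 : ℝ) ≤ t := hX4.trans ht1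
    have h6 : N0 ≤ t := by exact_mod_cast h5
    have h7 : t < 2 ^ t := Nat.lt_two_pow_self
    show N0 ≤ N
    omega
  · have hN0 : 1 ≤ N := le_trans (Nat.one_le_two_pow) hN2
    have hNpos : (0 : ℝ) < N := by exact_mod_cast hN0
    have hlogN : log N ≤ 2 * e * l ^ (1 + β) := by
      have h5 : (N : ℝ) ≤ ((X : ℝ) ^ e) ^ t := by exact_mod_cast hN3
      have h6 := Real.log_le_log hNpos h5
      rw [Real.log_pow, Real.log_pow, ← hl] at h6
      calc log N ≤ t * (e * l) := h6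
        _ ≤ (2 * l ^ β) * (e * l) := mul_le_mul_of_nonneg_right ht2 (by positivity)
        _ = 2 * e * (l * l ^ β) := by ring
        _ = 2 * e * l ^ (1 + β) := by rw [rpow_add hl0, rpow_one]
    have hlogN0 : 0 ≤ log N := Real.log_nonneg (by exact_mod_cast hN0)
    calc (log N) ^ σ ≤ (2 * e * l ^ (1 + β)) ^ σ := rpow_le_rpow hlogN0 hlogN hσ0.le
      _ = (2 * (e : ℝ)) ^ σ * l ^ ((1 + β) * σ) := by
          rw [mul_rpow (by positivity) (by positivity), ← rpow_mul hl0.le]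
      _ ≤ l ^ (β - (1 + β) * σ) * l ^ ((1 + β) * σ) :=
          mul_le_mul_of_nonneg_right hX2 (by positivity)
      _ = l ^ β := by rw [← rpow_add hl0]; congr 1; ring
      _ ≤ t := ht1
      _ ≤ reps A h N := by exact_mod_cast hN1

theorem main [Finite W] (hf1 : f 1 = 1)
    (hf : ∀ m n, Nat.Coprime m n → f (m * n) = f m * f n)
    {A : Set ℕ} (hA : ∀ a ∈ A, 0 < a) (hsupp : ∀ a ∈ A, f a ≠ 0)
    (hcl : ∀ a ∈ A, ∀ m, 0 < m → f m = 1 → Nat.Coprime a m → m * a ∈ A)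
    {h : ℕ} (hh : 2 ≤ h) {n0 : ℕ} (hrep : ∀ n, n0 ≤ n → f n = 1 → IsSum A h n)
    {δ σ : ℝ} (hδ : 0 < δ) (hσδ : σ < δ)
    (hfreq : ∃ᶠ X : ℕ in atTop,
      (X : ℝ) ^ δ ≤ (((Finset.Icc 1 X).filter (fun n => n ∈ A)).card : ℝ)) :
    ∃ᶠ n : ℕ in atTop, (log n) ^ σ ≤ (reps A h n : ℝ) := by
  have hδ1 : δ ≤ 1 := by
    obtain ⟨X, hX, hX2⟩ := (hfreq.and_eventually (eventually_ge_atTop 2)).exists
    have h1 : (((Finset.Icc 1 X).filter (fun n => n ∈ A)).card : ℝ) ≤ X := by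
      have := Finset.card_filter_le (Finset.Icc 1 X) (fun n => n ∈ A)
      rw [Nat.card_Icc, Nat.add_sub_cancel] at this
      exact_mod_cast this
    have h2 : (X : ℝ) ^ δ ≤ (X : ℝ) ^ (1 : ℝ) := by rw [rpow_one]; exact hX.trans h1
    exact (rpow_le_rpow_left_iff (by exact_mod_cast (by omega : 1 < X))).1 h2
  by_cases hσ : 0 < σ
  · exact main_pos hf1 hf hA hsupp hcl hh hrep hσ hσδ hδ1 hfreq
  · push Not at hσ
    have h1 := main_pos hf1 hf hA hsupp hcl hh hrep (σ := δ / 2) (by linarith) (by linarith)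
      hδ1 hfreq
    have hlog : Tendsto (fun X : ℕ => log (X : ℝ)) atTop atTop :=
      tendsto_log_atTop.comp tendsto_natCast_atTop_atTop
    refine (h1.and_eventually (hlog.eventually (eventually_ge_atTop 1))).mono ?_
    rintro n ⟨h2, h3⟩
    exact le_trans (rpow_le_rpow_of_exponent_le h3 (by linarith)) h2

end

lemma basis_count {A : Set ℕ} (hA : ∀ a ∈ A, 0 < a) {h : ℕ} {n0 : ℕ}
    (hrep : ∀ n, n0 ≤ n → IsSum A h n) (X : ℕ) :
    X + 1 - n0 ≤ (((Finset.Icc 1 X).filter (fun n => n ∈ A)).card) ^ h := by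
  set F := (Finset.Icc 1 X).filter (fun n => n ∈ A) with hF
  have hx : ∀ n ∈ Finset.Icc n0 X, ∃ v : Fin h → ℕ, (∀ i, v i ∈ A) ∧ ∑ i, v i = n :=
    fun n hn => hrep n (Finset.mem_Icc.1 hn).1
  choose! x hxA hxs using hx
  calc X + 1 - n0 = (Finset.Icc n0 X).card := (Nat.card_Icc _ _).symm
    _ ≤ (Fintype.piFinset (fun _ : Fin h => F)).card := by
        refine Finset.card_le_card_of_injOn x ?_ ?_
        · intro n hn
          have hn' : n ∈ Finset.Icc n0 X := hn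
          rw [Finset.mem_coe, Fintype.mem_piFinset]
          intro i
          rw [hF, Finset.mem_filter, Finset.mem_Icc]
          refine ⟨⟨hA _ (hxA n hn' i), ?_⟩, hxA n hn' i⟩
          have h5 : x n i ≤ ∑ j, x n j :=
            Finset.single_le_sum (f := fun j => x n j) (fun j _ => Nat.zero_le _)
              (Finset.mem_univ i)
          rw [hxs n hn'] at h5
          exact h5.trans (Finset.mem_Icc.1 hn').2
        · intro n hn m hm heq
          have hn' : n ∈ Finset.Icc n0 X := hn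
          have hm' : m ∈ Finset.Icc n0 X := hm
          rw [← hxs n hn', ← hxs m hm', heq]
    _ = F.card ^ h := by simp

lemma basis_density {A : Set ℕ} (hA : ∀ a ∈ A, 0 < a) {h : ℕ} (hh : 2 ≤ h) {n0 : ℕ}
    (hrep : ∀ n, n0 ≤ n → IsSum A h n) {δ : ℝ} (hδ : δ < 1 / h) :
    ∀ᶠ X : ℕ in atTop,
      (X : ℝ) ^ δ ≤ (((Finset.Icc 1 X).filter (fun n => n ∈ A)).card : ℝ) := by
  have hh0 : (0 : ℝ) < h := by exact_mod_cast (by omega : 0 < h)
  have hδh : δ * h < 1 := by rwa [lt_div_iff₀ hh0] at hδ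
  have h1 : ∀ᶠ X : ℕ in atTop, (2 : ℝ) ≤ (X : ℝ) ^ (1 - δ * h) :=
    ((tendsto_rpow_atTop (by linarith)).comp tendsto_natCast_atTop_atTop).eventually
      (eventually_ge_atTop _)
  filter_upwards [h1, eventually_ge_atTop (2 * n0 + 2)] with X hX hX2
  by_contra hcon
  push Not at hcon
  have hX0 : (0 : ℝ) < X := by exact_mod_cast (by omega : 0 < X)
  have h2 := basis_count hA hrep X
  have h3 : ((X : ℝ) + 1 - n0) ≤ (((Finset.Icc 1 X).filter (fun n => n ∈ A)).card : ℝ) ^ h := by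
    have h4 : ((X + 1 - n0 : ℕ) : ℝ) = (X : ℝ) + 1 - n0 := by
      rw [Nat.cast_sub (by omega)]
      push_cast
      ring
    rw [← h4]
    exact_mod_cast h2
  have h4 : (((Finset.Icc 1 X).filter (fun n => n ∈ A)).card : ℝ) ^ h ≤ ((X : ℝ) ^ δ) ^ h :=
    pow_le_pow_left₀ (by positivity) hcon.le _
  have h5 : ((X : ℝ) ^ δ) ^ h = (X : ℝ) ^ (δ * h) := by
    rw [← rpow_natCast, ← rpow_mul hX0.le]
  have h6 : 2 * (X : ℝ) ^ (δ * h) ≤ X := by
    calc 2 * (X : ℝ) ^ (δ * h) ≤ (X : ℝ) ^ (1 - δ * h) * (X : ℝ) ^ (δ * h) :=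
          mul_le_mul_of_nonneg_right hX (by positivity)
      _ = X := by rw [← rpow_add hX0]; ring_nf; rw [rpow_one]
  have h7 : (2 * n0 + 2 : ℝ) ≤ X := by exact_mod_cast hX2
  linarith

end Pool.Agent.R176.ETM
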