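import Mathlib

set_option autoImplicit false

/-! Rankin's bound for the number of integers composed of the primes of a finite set. -/

namespace Pool.Agent.R176.ETM

open Finset Real

/-- the completely multiplicative function `n ^ (-σ)` -/
noncomputable def powHom (σ : ℝ) (_hσ : 0 < σ) : ℕ →* ℝ where
  toFun n := (n : ℝ) ^ (-σ)
  map_one' := by simp
  map_mul' m n := by
    rw [Nat.cast_mul, mul_rpow (by positivity) (by positivity)]

lemma powHom_norm_lt {σ : ℝ} (hσ : 0 < σ) {p : ℕ} (hp : p.Prime) : ‖powHom σ hσ p‖ < 1 := by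
  show ‖(p : ℝ) ^ (-σ)‖ < 1
  have hp1 : (1 : ℝ) < p := by exact_mod_cast hp.one_lt
  rw [Real.norm_of_nonneg (by positivity)]
  exact rpow_lt_one_of_one_lt_of_neg hp1 (by linarith)

lemma rankin {σ : ℝ} (hσ : 0 < σ) (P : Finset ℕ) (hP : ∀ p ∈ P, p.Prime) (X : ℕ)
    (F : Finset ℕ) (hF : ∀ n ∈ F, 1 ≤ n ∧ n ≤ X ∧ n.primeFactors ⊆ P) :
    (F.card : ℝ) ≤ (X : ℝ) ^ σ * ∏ p ∈ P, (1 - (p : ℝ) ^ (-σ))⁻¹ := by
  obtain ⟨hs, hh⟩ := EulerProduct.summable_and_hasSum_factoredNumbers_prod_filter_prime_geometric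
    (f := powHom σ hσ) (fun {p} hp => powHom_norm_lt hσ hp) P
  have hprod : ∏ p ∈ P with p.Prime, (1 - powHom σ hσ p)⁻¹ = ∏ p ∈ P, (1 - (p : ℝ) ^ (-σ))⁻¹ := by
    rw [Finset.filter_true_of_mem hP]
    rfl
  rw [hprod] at hh
  have hmem : ∀ n ∈ F, n ∈ Nat.factoredNumbers P := by
    intro n hn
    obtain ⟨h1, _, h3⟩ := hF n hn
    exact Nat.mem_factoredNumbers_of_primeFactors_subset (by omega) h3
  have h1 : ∑ n ∈ F, (n : ℝ) ^ (-σ) ≤ ∏ p ∈ P, (1 - (p : ℝ) ^ (-σ))⁻¹ := by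
    have h2 : ∑ n ∈ F, (n : ℝ) ^ (-σ) =
        ∑ m ∈ F.subtype (· ∈ Nat.factoredNumbers P), powHom σ hσ (m : ℕ) :=
      (Finset.sum_subtype_of_mem (fun n : ℕ => powHom σ hσ n) hmem).symm
    rw [h2]
    refine sum_le_hasSum _ (fun m _ => ?_) hh
    show 0 ≤ ((m : ℕ) : ℝ) ^ (-σ)
    positivity
  calc (F.card : ℝ) = ∑ n ∈ F, (1 : ℝ) := by simp
    _ ≤ ∑ n ∈ F, (X : ℝ) ^ σ * (n : ℝ) ^ (-σ) := by
        refine Finset.sum_le_sum (fun n hn => ?_)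
        obtain ⟨h1, h2, _⟩ := hF n hn
        have hn0 : (0 : ℝ) < n := by exact_mod_cast h1
        rw [rpow_neg hn0.le, ← div_eq_mul_inv, le_div_iff₀ (by positivity), one_mul]
        exact rpow_le_rpow hn0.le (by exact_mod_cast h2) hσ.le
    _ = (X : ℝ) ^ σ * ∑ n ∈ F, (n : ℝ) ^ (-σ) := by rw [Finset.mul_sum]
    _ ≤ _ := mul_le_mul_of_nonneg_left h1 (by positivity)

lemma prod_le {σ : ℝ} (hσ : 0 < σ) (P : Finset ℕ) (hP : ∀ p ∈ P, p.Prime) :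
    ∏ p ∈ P, (1 - (p : ℝ) ^ (-σ))⁻¹ ≤ exp ((1 - (2 : ℝ) ^ (-σ))⁻¹ * ∑ p ∈ P, (p : ℝ) ^ (-σ)) := by
  have h2 : (2 : ℝ) ^ (-σ) < 1 := rpow_lt_one_of_one_lt_of_neg (by norm_num) (by linarith)
  rw [Finset.mul_sum, exp_sum]
  refine Finset.prod_le_prod (fun p hp => ?_) (fun p hp => ?_)
  · have hp1 : (1 : ℝ) < p := by exact_mod_cast (hP p hp).one_lt
    have := rpow_lt_one_of_one_lt_of_neg hp1 (by linarith : -σ < 0)
    exact inv_nonneg.2 (by linarith)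
  · have hp2 : (2 : ℝ) ≤ p := by exact_mod_cast (hP p hp).two_le
    set x : ℝ := (p : ℝ) ^ (-σ) with hx
    have hx0 : 0 < x := by positivity
    have hx2 : x ≤ (2 : ℝ) ^ (-σ) := by
      rw [hx]
      exact rpow_le_rpow_of_nonpos (by norm_num) hp2 (by linarith)
    have e1 : (1 - x)⁻¹ = x * (1 - x)⁻¹ + 1 := by
      have : (1 - x) ≠ 0 := by linarith
      field_simp
      ring
    have e2 : x * (1 - x)⁻¹ ≤ (1 - (2 : ℝ) ^ (-σ))⁻¹ * x := by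
      rw [mul_comm]
      refine mul_le_mul_of_nonneg_right ?_ hx0.le
      exact inv_anti₀ (by linarith) (by linarith)
    rw [e1]
    calc x * (1 - x)⁻¹ + 1 ≤ exp (x * (1 - x)⁻¹) := add_one_le_exp _
      _ ≤ _ := exp_le_exp.2 e2

lemma step {σ : ℝ} (h0 : 0 < σ) (h1 : σ < 1) (j : ℕ) (hj : 1 ≤ j) :
    (j : ℝ) ^ (-σ) ≤ ((j : ℝ) ^ (1 - σ) - ((j - 1 : ℕ) : ℝ) ^ (1 - σ)) / (1 - σ) := by
  have hj0 : (0 : ℝ) < j := by exact_mod_cast hj
  have hc : ((j - 1 : ℕ) : ℝ) = (j : ℝ) * (1 + (-(1 / (j : ℝ)))) := by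
    push_cast [hj]
    field_simp
    ring
  have hinv : (1 : ℝ) / j ≤ 1 := by
    rw [div_le_one hj0]
    exact_mod_cast hj
  have hb := rpow_one_add_le_one_add_mul_self (s := -(1 / (j : ℝ))) (by linarith)
    (p := 1 - σ) (by linarith) (by linarith)
  rw [le_div_iff₀ (by linarith), hc, mul_rpow hj0.le (by linarith)]
  have e1 : (j : ℝ) ^ (-σ) = (j : ℝ) ^ (1 - σ) * (1 / j) := by
    rw [show (1 - σ) = -σ + 1 by ring, rpow_add_one hj0.ne']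
    field_simp
  rw [e1]
  have hpos : 0 ≤ (j : ℝ) ^ (1 - σ) := by positivity
  nlinarith [mul_le_mul_of_nonneg_left hb hpos]

lemma sum_Icc_le {σ : ℝ} (h0 : 0 < σ) (h1 : σ < 1) (s : ℕ) :
    ∑ j ∈ Finset.Icc 1 s, (j : ℝ) ^ (-σ) ≤ (s : ℝ) ^ (1 - σ) / (1 - σ) := by
  induction s with
  | zero =>
    have : (0 : ℝ) ≤ ((0 : ℕ) : ℝ) ^ (1 - σ) / (1 - σ) := by
      have : (0 : ℝ) < 1 - σ := by linarith
      positivity
    simpa using this
  | succ s ih =>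
    rw [Finset.sum_Icc_succ_top (by omega)]
    have h2 := step h0 h1 (s + 1) (by omega)
    rw [Nat.add_sub_cancel, sub_div] at h2
    linarith

lemma sum_le {σ : ℝ} (h0 : 0 < σ) (h1 : σ < 1) (P : Finset ℕ) (hP : ∀ p ∈ P, p.Prime) :
    ∑ p ∈ P, (p : ℝ) ^ (-σ) ≤ (1 / (1 - σ) + 1) * (P.card : ℝ) ^ (1 - σ) := by
  classical
  rcases P.eq_empty_or_nonempty with rfl | hne
  · have : (0 : ℝ) < 1 - σ := by linarith
    simp only [Finset.sum_empty, Finset.card_empty]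
    positivity
  have hs : 0 < P.card := hne.card_pos
  set s := P.card with hsdef
  rw [← Finset.sum_filter_add_sum_filter_not P (fun p => p ≤ s)]
  have e1 : ∑ p ∈ P.filter (fun p => p ≤ s), (p : ℝ) ^ (-σ) ≤ (s : ℝ) ^ (1 - σ) / (1 - σ) := by
    refine le_trans ?_ (sum_Icc_le h0 h1 s)
    refine Finset.sum_le_sum_of_subset_of_nonneg ?_ (fun i _ _ => by positivity)
    intro p hp
    rw [Finset.mem_filter] at hp
    rw [Finset.mem_Icc]
    exact ⟨(hP p hp.1).one_le, hp.2⟩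
  have e2 : ∑ p ∈ P.filter (fun p => ¬ p ≤ s), (p : ℝ) ^ (-σ) ≤ (s : ℝ) ^ (1 - σ) := by
    calc ∑ p ∈ P.filter (fun p => ¬ p ≤ s), (p : ℝ) ^ (-σ)
        ≤ ∑ p ∈ P.filter (fun p => ¬ p ≤ s), (s : ℝ) ^ (-σ) := by
          refine Finset.sum_le_sum (fun p hp => ?_)
          rw [Finset.mem_filter] at hp
          exact rpow_le_rpow_of_nonpos (by exact_mod_cast hs)
            (by exact_mod_cast (not_le.1 hp.2).le) (by linarith)
      _ = ((P.filter (fun p => ¬ p ≤ s)).card : ℝ) * (s : ℝ) ^ (-σ) := by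
          rw [Finset.sum_const, nsmul_eq_mul]
      _ ≤ (s : ℝ) * (s : ℝ) ^ (-σ) := by
          refine mul_le_mul_of_nonneg_right ?_ (by positivity)
          exact_mod_cast Finset.card_filter_le _ _
      _ = (s : ℝ) ^ (1 - σ) := by
          have : (0 : ℝ) < s := by exact_mod_cast hs
          rw [show (1 - σ) = -σ + 1 by ring, rpow_add_one this.ne', mul_comm]
  calc _ ≤ (s : ℝ) ^ (1 - σ) / (1 - σ) + (s : ℝ) ^ (1 - σ) := add_le_add e1 e2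
    _ = _ := by ring

/-- The final count. -/
lemma count {σ : ℝ} (h0 : 0 < σ) (h1 : σ < 1) :
    ∃ K : ℝ, 0 < K ∧ ∀ (P : Finset ℕ), (∀ p ∈ P, p.Prime) → ∀ (X : ℕ) (F : Finset ℕ),
      (∀ n ∈ F, 1 ≤ n ∧ n ≤ X ∧ n.primeFactors ⊆ P) →
      (F.card : ℝ) ≤ (X : ℝ) ^ σ * exp (K * (P.card : ℝ) ^ (1 - σ)) := by
  have h2 : (2 : ℝ) ^ (-σ) < 1 := rpow_lt_one_of_one_lt_of_neg (by norm_num) (by linarith)
  have hc : 0 < (1 - (2 : ℝ) ^ (-σ))⁻¹ := inv_pos.2 (by linarith)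
  have hd : 0 < (1 / (1 - σ) + 1) := by
    have : (0 : ℝ) < 1 - σ := by linarith
    positivity
  refine ⟨(1 - (2 : ℝ) ^ (-σ))⁻¹ * (1 / (1 - σ) + 1), by positivity, fun P hP X F hF => ?_⟩
  refine (rankin h0 P hP X F hF).trans ?_
  refine mul_le_mul_of_nonneg_left ?_ (by positivity)
  refine (prod_le h0 P hP).trans (exp_le_exp.2 ?_)
  rw [mul_assoc]
  exact mul_le_mul_of_nonneg_left (sum_le h0 h1 P hP) hc.le

end Pool.Agent.R176.ETM
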